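import Pool.Agent.Y142.Core

/-!
# Determinants of stable subspaces over the rational numbers are Tate characters
-/

set_option autoImplicit false

namespace Pool.Agent.V5helper84.TS

open NumberField Filter Topology IsDedekindDomain Polynomial Module
open Pool.Agent.W569.FM (GF FrobAt OO)
open Pool.Agent.Y142

variable {ℓ : ℕ} [hℓ : Fact ℓ.Prime] {V : Type*} [AddCommGroup V] [Module ℚ_[ℓ] V]
  [FiniteDimensional ℚ_[ℓ] V]

/-- a subgroup of finite index from an open one -/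
theorem finiteIndex_of_open {U : Subgroup (GF ℚ)} (hU : IsOpen (U : Set (GF ℚ))) :
    U.FiniteIndex := by
  have := Subgroup.quotient_finite_of_isOpen U hU
  exact Subgroup.finiteIndex_of_finite_quotient

theorem core_open {U : Subgroup (GF ℚ)} (hU : IsOpen (U : Set (GF ℚ))) :
    IsOpen (U.normalCore : Set (GF ℚ)) := by
  have := finiteIndex_of_open hU
  exact Subgroup.isOpen_of_isClosed_of_finiteIndex _
    (U.normalCore_isClosed (U.isClosed_of_isOpen hU))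

/-- the parity, over the rational numbers -/
theorem even_of_rel' {δ c : GF ℚ →* ℚ_[ℓ]ˣ} (hδ : Continuous fun g => (δ g : ℚ_[ℓ]))
    (hc : Continuous fun g => (c g : ℚ_[ℓ])) {k n : ℕ} (hn : 0 < n)
    (hrel : ∀ g, δ g ^ (2 * n) = c g ^ (k * n)) {B : ℕ}
    (hcS : ∀ q : ℕ, q.Prime → B < q → ∀ P : Ideal (OO ℚ), P.IsMaximal → (q : OO ℚ) ∈ P →
      ∀ σ, FrobAt q P σ → (c σ⁻¹ : ℚ_[ℓ]) = q)
    (hnear : ∀ ε : ℝ, 0 < ε → ∃ N : Subgroup (GF ℚ), IsOpen (N : Set (GF ℚ)) ∧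
      ∀ q : ℕ, q.Prime → B < q → ∀ P : Ideal (OO ℚ), P.IsMaximal → (q : OO ℚ) ∈ P →
      ∀ σ ∈ N, FrobAt q P σ → ConjIn (NearOne (ℓ := ℓ) ε) (δ σ⁻¹ : ℚ_[ℓ])) :
    Even k := by
  classical
  by_contra hodd
  rw [Nat.not_even_iff_odd] at hodd
  have h2pos : 0 < ‖(2 : PadicAlgCl ℓ)‖ := norm_pos_iff.2 two_ne_zero
  set ε : ℝ := ‖(2 : PadicAlgCl ℓ)‖ / 2 with hε
  have hεpos : 0 < ε := by positivity
  obtain ⟨N, hN, hNear⟩ := hnear ε hεpos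
  let κ : GF ℚ →* ℚ_[ℓ]ˣ :=
    { toFun := fun g => δ g ^ 2 / c g ^ k
      map_one' := by simp
      map_mul' := fun a b => by
        simp only [map_mul, mul_pow]
        rw [mul_div_mul_comm] }
  have hκn : ∀ g, κ g ^ n = 1 := by
    intro g
    change (δ g ^ 2 / c g ^ k) ^ n = 1
    rw [div_pow, ← pow_mul, ← pow_mul, hrel, div_self']
  have hκc : Continuous fun g => (κ g : ℚ_[ℓ]) := by
    have h1 : (fun g => (κ g : ℚ_[ℓ])) = fun g => (δ g : ℚ_[ℓ]) ^ 2 / (c g : ℚ_[ℓ]) ^ k := by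
      funext g
      change ((δ g ^ 2 / c g ^ k : ℚ_[ℓ]ˣ) : ℚ_[ℓ]) = _
      rw [Units.val_div_eq_div_val, Units.val_pow_eq_pow_val, Units.val_pow_eq_pow_val]
    rw [h1]
    exact (hδ.pow 2).div (hc.pow k) fun g => pow_ne_zero _ (Units.ne_zero _)
  have hκo : IsOpen (κ.ker : Set (GF ℚ)) := isOpen_ker_of_pow hκc hn hκn
  let N'' : Subgroup (GF ℚ) := N ⊓ κ.ker
  have hN'' : IsOpen (N'' : Set (GF ℚ)) := hN.inter hκo
  obtain ⟨q, hq, hqB, P, g, hP, hqP, hg, hgU⟩ := exists_frob_core N''.normalCore (core_open hN'') B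
  have hgN : g ∈ N'' := N''.normalCore_le hgU
  set β : ℚ_[ℓ] := (δ g⁻¹ : ℚ_[ℓ]) with hβ
  have hβ2 : β ^ 2 = (q : ℚ_[ℓ]) ^ k := by
    have h1 : κ g⁻¹ = 1 := by rw [map_inv, MonoidHom.mem_ker.1 hgN.2, inv_one]
    have h2 : δ g⁻¹ ^ 2 = c g⁻¹ ^ k := by
      have h3 : δ g⁻¹ ^ 2 / c g⁻¹ ^ k = 1 := h1
      exact div_eq_one.1 h3
    rw [hβ, ← Units.val_pow_eq_pow_val, h2, Units.val_pow_eq_pow_val,
      hcS q hq hqB P hP hqP g hg]
  have hβn : ConjIn (NearOne (ℓ := ℓ) ε) β := hNear q hq hqB P hP hqP g hgN.1 hg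
  obtain ⟨R, hR, hRβ, hRn⟩ := hβn
  have h1 : aeval (-β) R = 0 := aeval_neg_of_sq hq hodd hβ2 hRβ
  have h2 : ∀ γ : ℚ_[ℓ], aeval γ R = 0 → ‖(γ : PadicAlgCl ℓ) - 1‖ ≤ ε := by
    intro γ hγ
    refine hRn _ ?_
    have h3 := aeval_algebraMap_apply (PadicAlgCl ℓ) γ R
    rw [hγ, map_zero] at h3
    exact h3
  have h3 := h2 β hRβ
  have h4 := h2 (-β) h1
  have h5 : ‖(-2 : PadicAlgCl ℓ)‖ ≤ ε := by
    have h6 : (-2 : PadicAlgCl ℓ) =
        ((β : PadicAlgCl ℓ) - 1) + (((-β : ℚ_[ℓ]) : PadicAlgCl ℓ) - 1) := by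
      have h7 : ((-β : ℚ_[ℓ]) : PadicAlgCl ℓ) = -(β : PadicAlgCl ℓ) := map_neg _ _
      rw [h7]
      ring
    rw [h6]
    exact (IsUltrametricDist.norm_add_le_max _ _).trans (max_le h3 h4)
  rw [norm_neg] at h5
  rw [hε] at h5
  linarith

/-- **The determinant of a stable subspace**: up to characters of finite order it is a power of the
inverse of the cyclotomic character. -/
theorem det_tate (ρ : GF ℚ →* (V →ₗ[ℚ_[ℓ]] V))
    (hρ : ∀ (φ : Dual ℚ_[ℓ] V) (x : V), Continuous fun g => φ (ρ g x))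
    (c : GF ℚ →* ℚ_[ℓ]ˣ) (hc : Continuous fun g => (c g : ℚ_[ℓ])) {w : ℕ} (hw : 0 < w) (S : Finset ℕ)
    (hP : ∀ q : ℕ, q.Prime → q ∉ S → ∀ P : Ideal (OO ℚ), P.IsMaximal → (q : OO ℚ) ∈ P →
      ∀ σ, FrobAt q P σ → (c σ⁻¹ : ℚ_[ℓ]) = q ∧ ∃ R : ℤ[X], R.Monic ∧
        (ρ σ⁻¹).charpoly = R.map (algebraMap ℤ ℚ_[ℓ]) ∧
        ∀ z : ℂ, aeval z R = 0 → ‖z‖ ^ 2 = (q : ℝ) ^ w)
    (W : Submodule ℚ_[ℓ] V) (hW : ∀ g, W ≤ W.comap (ρ g)) :
    ∃ m : ℕ, 2 * m = finrank ℚ_[ℓ] W * w ∧ ∃ Δ : Subgroup (GF ℚ), IsOpen (Δ : Set (GF ℚ)) ∧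
      ∀ g ∈ Δ, LinearMap.det ((ρ g).restrict (hW g)) = (c g : ℚ_[ℓ]) ^ m := by
  classical
  set d := finrank ℚ_[ℓ] W with hd
  have hδc := continuous_detRep ρ W hW hρ
  obtain ⟨B, hB⟩ : ∃ B : ℕ, ∀ q : ℕ, B < q → q ∉ S := by
    refine ⟨S.sup id, fun q hq hqS => ?_⟩
    exact absurd (Finset.le_sup (f := id) hqS) (not_le.2 hq)
  have hχc : Continuous fun g => (((c ^ w) g : ℚ_[ℓ]ˣ) : ℚ_[ℓ]) := by
    have h1 : (fun g => (((c ^ w) g : ℚ_[ℓ]ˣ) : ℚ_[ℓ])) = fun g => (c g : ℚ_[ℓ]) ^ w := by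
      funext g
      rw [MonoidHom.pow_apply, Units.val_pow_eq_pow_val]
    rw [h1]
    exact hc.pow w
  have hpure : ∀ q : ℕ, q.Prime → B < q → ∀ P : Ideal (OO ℚ), P.IsMaximal → (q : OO ℚ) ∈ P →
      ∀ σ, FrobAt q P σ → Pure ((q : ℝ) ^ (w * d)) (detRep ρ W hW σ⁻¹ : ℚ_[ℓ]) := by
    intro q hq hqB P hPm hqP σ hσ
    obtain ⟨-, R, hR, hR2, hR3⟩ := hP q hq (hB q hqB) P hPm hqP σ hσ
    have h4 : ((ρ σ⁻¹).restrict (hW σ⁻¹)).charpoly ∣ R.map (algebraMap ℤ ℚ_[ℓ]) := by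
      rw [← hR2, charpoly_eq_mul (hW σ⁻¹)]
      exact dvd_mul_right _ _
    have h5 := pure_coeff_zero hR hR3 (LinearMap.charpoly_monic _) h4
    rw [← det_eq_sign_coeff, LinearMap.charpoly_natDegree, ← hd, ← pow_mul] at h5
    exact h5
  obtain ⟨n, hn, hrel⟩ := char_main (detRep ρ W hW) (c ^ w) hδc hχc (d := d) hw (fun T => by
    obtain ⟨q, hq, hqB, P, g, hPm, hqP, hg, -⟩ :=
      exists_frob_core (⊤ : Subgroup (GF ℚ)) isOpen_univ (max B (T.sup id))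
    have hqB' : B < q := lt_of_le_of_lt (le_max_left _ _) hqB
    have hqT : T.sup id < q := lt_of_le_of_lt (le_max_right _ _) hqB
    refine ⟨q, hq, fun h => absurd (Finset.le_sup (f := id) h) (not_le.2 hqT), g⁻¹, ?_, ?_⟩
    · rw [MonoidHom.pow_apply, Units.val_pow_eq_pow_val, (hP q hq (hB q hqB') P hPm hqP g hg).1]
    · exact hpure q hq hqB' P hPm hqP g hg)
  have hrel' : ∀ g, detRep ρ W hW g ^ (2 * n) = c g ^ (d * w * n) := by
    intro g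
    rw [hrel, MonoidHom.pow_apply, ← pow_mul]
    congr 1
    ring
  have heven : Even (d * w) := by
    refine even_of_rel' hδc hc hn hrel' (B := B)
      (fun q hq hqB P hPm hqP σ hσ => (hP q hq (hB q hqB) P hPm hqP σ hσ).1) fun ε hε => ?_
    obtain ⟨N, hN, hN2⟩ := exists_near_subgroup ρ hρ (ε := min ε 1) (lt_min hε one_pos)
    refine ⟨N, hN, fun q hq hqB P hPm hqP σ hσN hσ => ?_⟩
    obtain ⟨-, R, hR, hR2, -⟩ := hP q hq (hB q hqB) P hPm hqP σ hσ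
    have h4 := conjIn_detRep hR hR2 (ε := min ε 1) (lt_min hε one_pos).le (min_le_right _ _)
      (hN2 σ⁻¹ (N.inv_mem hσN)) (hW σ⁻¹)
    obtain ⟨R', hR1', hR2', hR3'⟩ := h4
    exact ⟨R', hR1', hR2', fun z hz => (hR3' z hz).trans (min_le_left _ _)⟩
  obtain ⟨m, hm⟩ := heven
  refine ⟨m, by omega, ?_⟩
  let κ : GF ℚ →* ℚ_[ℓ]ˣ :=
    { toFun := fun g => detRep ρ W hW g / c g ^ m
      map_one' := by simp
      map_mul' := fun a b => by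
        simp only [map_mul, mul_pow]
        rw [mul_div_mul_comm] }
  have hκn : ∀ g, κ g ^ (2 * n) = 1 := by
    intro g
    change (detRep ρ W hW g / c g ^ m) ^ (2 * n) = 1
    rw [div_pow, hrel', ← pow_mul, div_eq_one]
    congr 1
    rw [hm]
    ring
  have hκc : Continuous fun g => (κ g : ℚ_[ℓ]) := by
    have h1 : (fun g => (κ g : ℚ_[ℓ])) = fun g => (detRep ρ W hW g : ℚ_[ℓ]) / (c g : ℚ_[ℓ]) ^ m := by
      funext g
      change ((detRep ρ W hW g / c g ^ m : ℚ_[ℓ]ˣ) : ℚ_[ℓ]) = _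
      rw [Units.val_div_eq_div_val, Units.val_pow_eq_pow_val]
    rw [h1]
    exact hδc.div (hc.pow m) fun g => pow_ne_zero _ (Units.ne_zero _)
  have hκo : IsOpen (κ.ker : Set (GF ℚ)) := isOpen_ker_of_pow hκc (by omega) hκn
  refine ⟨κ.ker, hκo, fun g hg => ?_⟩
  have h1 : detRep ρ W hW g / c g ^ m = 1 := MonoidHom.mem_ker.1 hg
  rw [← coe_detRep, div_eq_one.1 h1, Units.val_pow_eq_pow_val]

end Pool.Agent.V5helper84.TS
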