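import Mathlib

/-!
# Stable subspaces and semi-invariants in exterior powers
-/

set_option autoImplicit false

namespace Pool.Agent.V5helper84.TS

open Module exteriorPower

variable {F : Type*} [Field F] {V : Type*} [AddCommGroup V] [Module F V]

/-- the form on the exterior power -/
noncomputable def form (B : V →ₗ[F] V →ₗ[F] F) (n : ℕ) : ⋀[F]^n V →ₗ[F] Module.Dual F (⋀[F]^n V) :=
  pairingDual F V n ∘ₗ exteriorPower.map n B

theorem form_ι (B : V →ₗ[F] V →ₗ[F] F) (n : ℕ) (x y : Fin n → V) :
    form B n (ιMulti F n x) (ιMulti F n y) = Matrix.det (Matrix.of fun i j => B (x j) (y i)) := by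
  rw [form, LinearMap.comp_apply, map_apply_ιMulti]
  exact pairingDual_ιMulti_ιMulti _ _

theorem form_map {B : V →ₗ[F] V →ₗ[F] F} (n : ℕ) {f : V →ₗ[F] V} {a : F}
    (h : ∀ x y, B (f x) (f y) = a * B x y) (s t : ⋀[F]^n V) :
    form B n (exteriorPower.map n f s) (exteriorPower.map n f t) = a ^ n * form B n s t := by
  have h1 : (LinearMap.compl₁₂ (form B n) (exteriorPower.map n f) (exteriorPower.map n f)) =
      (a ^ n) • form B n := by
    refine exteriorPower.linearMap_ext (AlternatingMap.ext fun x =>
      exteriorPower.linearMap_ext (AlternatingMap.ext fun y => ?_))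
    simp only [LinearMap.compAlternatingMap_apply, LinearMap.compl₁₂_apply, map_apply_ιMulti,
      LinearMap.smul_apply, smul_eq_mul, form_ι, Function.comp_apply, h]
    have h2 : (Matrix.of fun i j : Fin n => a * B (x j) (y i)) =
        a • (Matrix.of fun i j : Fin n => B (x j) (y i)) := by
      ext i j
      simp
    rw [h2, Matrix.det_smul, Fintype.card_fin]
  exact LinearMap.congr_fun (LinearMap.congr_fun h1 s) t

/-- the top exterior power of a stable subspace -/
theorem map_basis {W : Submodule F V} {n : ℕ} (b : Basis (Fin n) F W) {f : V →ₗ[F] V}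
    (hf : W ≤ W.comap f) :
    exteriorPower.map n f (ιMulti F n fun i => (b i : V)) =
      LinearMap.det (f.restrict hf) • ιMulti F n fun i => (b i : V) := by
  rw [← sub_eq_zero]
  refine (Module.forall_dual_apply_eq_zero_iff F _).1 fun φ => ?_
  rw [map_sub, map_smul, map_apply_ιMulti, smul_eq_mul, sub_eq_zero]
  let g : W [⋀^Fin n]→ₗ[F] F := (φ.compAlternatingMap (ιMulti F n)).compLinearMap W.subtype
  have h1 := congrArg (fun u : W [⋀^Fin n]→ₗ[F] F => u fun i => f.restrict hf (b i))
    (g.eq_smul_basis_det b)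
  simp only [AlternatingMap.smul_apply, smul_eq_mul] at h1
  have h2 : b.det (fun i => f.restrict hf (b i)) = LinearMap.det (f.restrict hf) := by
    have h3 := b.det_comp (f.restrict hf) b
    rw [b.det_self, mul_one] at h3
    exact h3
  rw [h2] at h1
  rw [mul_comm]
  exact h1

/-- A subspace on which a semi-invariant form does not vanish has a stable complement. -/
theorem exists_compl [FiniteDimensional F V] {G : Type*} [Group G] (ρ : G →* (V →ₗ[F] V))
    (W : Submodule F V)
    (hW : ∀ g, W ≤ W.comap (ρ g)) {n : ℕ} (b : Basis (Fin n) F W) (φ : V [⋀^Fin n]→ₗ[F] F)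
    (Δ : Subgroup G) (hφ : ∀ g ∈ Δ, ∃ a : F, a ≠ 0 ∧ ∀ x, φ (fun i => ρ g (x i)) = a * φ x)
    (h0 : φ (fun i => (b i : V)) ≠ 0) :
    ∃ K : Submodule F V, IsCompl W K ∧ ∀ g ∈ Δ, K ≤ K.comap (ρ g) := by
  classical
  have hn : finrank F W = n := by rw [finrank_eq_card_basis b, Fintype.card_fin]
  cases n with
  | zero =>
    have h1 : W = ⊥ := Submodule.finrank_eq_zero.1 hn
    exact ⟨⊤, by rw [h1]; exact isCompl_bot_top, fun g _ => le_top⟩
  | succ k =>
    let T : V →ₗ[F] (W [⋀^Fin k]→ₗ[F] F) :=
      { toFun := fun v => (φ.curryLeft v).compLinearMap W.subtype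
        map_add' := fun u v => by
          ext x
          simp
        map_smul' := fun r v => by
          ext x
          simp }
    have hT : ∀ v x, T v x = φ (Matrix.vecCons v fun i => (x i : V)) := fun v x => rfl
    have hdisj : Disjoint W (LinearMap.ker T) := by
      rw [Submodule.disjoint_def]
      intro v hv hvT
      by_contra hv0
      -- a basis vector with nonzero coefficient
      obtain ⟨i, hi⟩ : ∃ i, b.repr ⟨v, hv⟩ i ≠ 0 := by
        by_contra hcon
        push Not at hcon
        apply hv0
        have h1 : b.repr ⟨v, hv⟩ = 0 := Finsupp.ext hcon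
        have h2 := (LinearEquiv.map_eq_zero_iff _).1 h1
        exact congrArg Subtype.val h2
      have h1 : φ (Function.update (fun j => (b j : V)) i v) =
          b.repr ⟨v, hv⟩ i * φ (fun j => (b j : V)) := by
        have h2 : v = ∑ j, b.repr ⟨v, hv⟩ j • (b j : V) := by
          have h3 := congrArg Subtype.val (b.sum_repr ⟨v, hv⟩)
          simp only [Submodule.coe_sum, Submodule.coe_smul] at h3
          exact h3.symm
        conv_lhs => rw [h2]
        rw [AlternatingMap.map_update_sum, Finset.sum_eq_single i]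
        · rw [AlternatingMap.map_update_smul, Function.update_eq_self, smul_eq_mul]
        · intro j _ hj
          rw [AlternatingMap.map_update_smul, AlternatingMap.map_update_self _ _ hj.symm,
            smul_zero]
        · intro h4
          exact absurd (Finset.mem_univ _) h4
      have h2 : φ (Function.update (fun j => (b j : V)) i v) = 0 := by
        let x : Fin (k + 1) → V := Function.update (fun j => (b j : V)) i v
        let y : Fin (k + 1) → V := x ∘ Equiv.swap 0 i
        have h3 : φ y = 0 := by
          have h4 : y = Matrix.vecCons v fun j => y j.succ := by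
            funext j
            refine Fin.cases ?_ (fun j => ?_) j
            · simp [y, x]
            · simp
          have h5 : ∀ j : Fin k, y j.succ ∈ W := by
            intro j
            have h6 : Equiv.swap 0 i j.succ ≠ i := by
              intro h7
              have h8 := (Equiv.swap_apply_eq_iff.1 h7)
              rw [Equiv.swap_apply_right] at h8
              exact Fin.succ_ne_zero j h8
            simp only [y, x, Function.comp_apply]
            rw [Function.update_of_ne h6]
            exact Submodule.coe_mem _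
          have h6 := congrArg (fun u => u fun j => (⟨y j.succ, h5 j⟩ : W)) (LinearMap.mem_ker.1 hvT)
          simp only [hT, AlternatingMap.zero_apply] at h6
          rw [h4]
          exact h6
        have h4 := φ.map_perm x (Equiv.swap 0 i)
        change φ y = _ at h4
        rw [h3] at h4
        by_contra hx
        rcases Int.units_eq_one_or (Equiv.Perm.sign (Equiv.swap 0 i)) with h5 | h5
        · rw [h5, one_smul] at h4
          exact hx h4.symm
        · rw [h5, Units.neg_smul, one_smul] at h4
          exact hx (neg_eq_zero.1 h4.symm)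
      rw [h1] at h2
      exact mul_ne_zero hi h0 h2
    have hdim : finrank F V ≤ finrank F W + finrank F (LinearMap.ker T) := by
      have h1 := LinearMap.finrank_range_add_finrank_ker T
      have hfin : Module.Finite F (W [⋀^Fin k]→ₗ[F] F) := Module.Finite.equiv
        (alternatingMapLinearEquiv (R := F) (M := W) (N := F) (n := k)).symm
      have h2 := Submodule.finrank_le (LinearMap.range T)
      have h3 : finrank F (W [⋀^Fin k]→ₗ[F] F) = k + 1 := by
        rw [(alternatingMapLinearEquiv (R := F) (M := W) (N := F) (n := k)).finrank_eq,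
          Subspace.dual_finrank_eq, exteriorPower.finrank_eq, hn, Nat.choose_succ_self_right]
      omega
    refine ⟨LinearMap.ker T, ⟨hdisj, ?_⟩, ?_⟩
    · rw [codisjoint_iff]
      apply Submodule.eq_top_of_finrank_eq
      have h1 := Submodule.finrank_sup_add_finrank_inf_eq W (LinearMap.ker T)
      rw [hdisj.eq_bot, finrank_bot, add_zero] at h1
      have h2 := Submodule.finrank_le (W ⊔ LinearMap.ker T)
      omega
    · intro g hg v hv
      rw [Submodule.mem_comap, LinearMap.mem_ker]
      ext x
      rw [hT, AlternatingMap.zero_apply]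
      obtain ⟨a, ha, h1⟩ := hφ g hg
      have h2 : (Matrix.vecCons (ρ g v) fun i => (x i : V)) =
          fun i => ρ g ((Matrix.vecCons v fun i => ρ g⁻¹ (x i : V) : Fin (k + 1) → V) i) := by
        funext j
        refine Fin.cases ?_ (fun j => ?_) j
        · simp
        · have h3 : ρ g (ρ g⁻¹ (x j : V)) = (x j : V) := by
            rw [← Module.End.mul_apply, ← map_mul, mul_inv_cancel, map_one, Module.End.one_apply]
          simp [h3]
      have h3 := congrArg (fun u => u fun j => (⟨ρ g⁻¹ (x j : V), hW g⁻¹ (x j).2⟩ : W))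
        (LinearMap.mem_ker.1 hv)
      simp only [hT, AlternatingMap.zero_apply] at h3
      rw [h2, h1, h3, mul_zero]

/-- Averaging of a complement over a subgroup of finite index. -/
theorem average [CharZero F] {G : Type*} [Group G] (ρ : G →* (V →ₗ[F] V)) (W : Submodule F V)
    (hW : ∀ g, W ≤ W.comap (ρ g)) (Δ : Subgroup G) (hΔ : Δ.FiniteIndex)
    (K : Submodule F V) (hK : IsCompl W K) (hKΔ : ∀ g ∈ Δ, K ≤ K.comap (ρ g)) :
    ∃ K' : Submodule F V, IsCompl W K' ∧ ∀ g, K' ≤ K'.comap (ρ g) := by
  classical
  have hfin : Finite (G ⧸ Δ) := Subgroup.finite_quotient_of_finiteIndex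
  have : Fintype (G ⧸ Δ) := Fintype.ofFinite _
  have hinv : ∀ g (v : V), ρ g (ρ g⁻¹ v) = v := fun g v => by
    rw [← Module.End.mul_apply, ← map_mul, mul_inv_cancel, map_one, Module.End.one_apply]
  let r : V →ₗ[F] V := W.subtype ∘ₗ W.projectionOnto K hK
  have hr1 : ∀ v, r v ∈ W := fun v => Submodule.coe_mem _
  have hr2 : ∀ v ∈ W, r v = v := fun v hv =>
    congrArg Subtype.val (Submodule.projectionOnto_apply_left hK ⟨v, hv⟩)
  have hr3 : ∀ v ∈ K, r v = 0 := fun v hv => by
    have h1 := (Submodule.projectionOnto_apply_eq_zero_iff hK (x := v)).2 hv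
    exact congrArg Subtype.val h1
  have hrΔ : ∀ g ∈ Δ, ∀ v, r (ρ g v) = ρ g (r v) := by
    intro g hg v
    have hv : v ∈ W ⊔ K := by rw [hK.sup_eq_top]; trivial
    obtain ⟨x, hx, y, hy, rfl⟩ := Submodule.mem_sup.1 hv
    rw [map_add, map_add, map_add, map_add, hr2 _ (hW g hx), hr3 _ (hKΔ g hg hy), hr2 _ hx,
      hr3 _ hy, map_zero]
  let E : G → (V →ₗ[F] V) := fun g => ρ g ∘ₗ r ∘ₗ ρ g⁻¹
  have hE : ∀ g, ∀ δ ∈ Δ, E (g * δ) = E g := by
    intro g δ hδ
    refine LinearMap.ext fun v => ?_
    simp only [E, LinearMap.comp_apply, mul_inv_rev, map_mul, Module.End.mul_apply]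
    rw [hrΔ _ (Δ.inv_mem hδ), hinv]
  let R : V →ₗ[F] V := ∑ q : G ⧸ Δ, E q.out
  have hEq : ∀ g h : G, (g : G ⧸ Δ) = h → E g = E h := by
    intro g h hgh
    have h1 := QuotientGroup.eq.1 hgh
    have h2 : h = g * (g⁻¹ * h) := by group
    rw [h2, hE _ _ h1]
  have hR : ∀ g v, R (ρ g v) = ρ g (R v) := by
    intro g v
    have h1 : ρ g ∘ₗ R ∘ₗ ρ g⁻¹ = R := by
      have h2 : ρ g ∘ₗ R ∘ₗ ρ g⁻¹ = ∑ q : G ⧸ Δ, E (g * q.out) := by
        refine LinearMap.ext fun v => ?_
        simp only [R, E, LinearMap.comp_apply, LinearMap.sum_apply, map_sum, mul_inv_rev, map_mul,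
          Module.End.mul_apply]
      rw [h2]
      have h3 : ∀ q : G ⧸ Δ, E (g * q.out) = E (g • q).out := by
        intro q
        apply hEq
        have h4 : ((g * q.out : G) : G ⧸ Δ) = g • q := by
          conv_rhs => rw [← QuotientGroup.out_eq' q]
          rfl
        rw [h4, QuotientGroup.out_eq']
      rw [Finset.sum_congr rfl fun q _ => h3 q]
      exact Fintype.sum_equiv (MulAction.toPerm g) _ _ fun q => rfl
    have h2 := LinearMap.congr_fun h1 (ρ g v)
    rw [LinearMap.comp_apply, LinearMap.comp_apply] at h2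
    rw [← h2]
    have h3 : ρ g⁻¹ (ρ g v) = v := by
      rw [← Module.End.mul_apply, ← map_mul, inv_mul_cancel, map_one, Module.End.one_apply]
    rw [h3]
  have hRW : ∀ v, R v ∈ W := by
    intro v
    simp only [R, LinearMap.sum_apply]
    refine Submodule.sum_mem _ fun q _ => ?_
    exact hW _ (hr1 _)
  have hRid : ∀ v ∈ W, R v = (Fintype.card (G ⧸ Δ) : F) • v := by
    intro v hv
    simp only [R, E, LinearMap.sum_apply, LinearMap.comp_apply]
    rw [Finset.sum_congr rfl fun q _ => (show ρ q.out (r (ρ (q.out)⁻¹ v)) = v from by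
      rw [hr2 _ (hW _ hv), hinv]), Finset.sum_const, Finset.card_univ, Nat.cast_smul_eq_nsmul]
  have hN : (Fintype.card (G ⧸ Δ) : F) ≠ 0 := Nat.cast_ne_zero.2 Fintype.card_ne_zero
  refine ⟨LinearMap.ker R, ⟨?_, ?_⟩, ?_⟩
  · rw [Submodule.disjoint_def]
    intro v hv hv2
    have h1 := hRid v hv
    rw [LinearMap.mem_ker.1 hv2] at h1
    exact (smul_eq_zero.1 h1.symm).resolve_left hN
  · rw [codisjoint_iff, Submodule.eq_top_iff']
    intro v
    rw [Submodule.mem_sup]
    refine ⟨(Fintype.card (G ⧸ Δ) : F)⁻¹ • R v, W.smul_mem _ (hRW v),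
      v - (Fintype.card (G ⧸ Δ) : F)⁻¹ • R v, ?_, by abel⟩
    rw [LinearMap.mem_ker, map_sub, map_smul, hRid _ (hRW v), inv_smul_smul₀ hN, sub_self]
  · intro g v hv
    rw [Submodule.mem_comap, LinearMap.mem_ker, hR, LinearMap.mem_ker.1 hv, map_zero]

end Pool.Agent.V5helper84.TS
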