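import Pool.Agent.V5helper84.TS.C1
import Pool.Agent.V5helper84.TS.C2

/-!
# Stable subspaces of the cohomology and Tate classes in exterior powers
-/

set_option autoImplicit false

namespace Pool.Agent.V5helper84.TS

open NumberField Filter Topology IsDedekindDomain Polynomial Module exteriorPower
open Pool.Agent.W569.FM (GF FrobAt OO)
open Pool.Agent.Y142

variable {ℓ : ℕ} [hℓ : Fact ℓ.Prime] {V : Type*} [AddCommGroup V] [Module ℚ_[ℓ] V]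
  [FiniteDimensional ℚ_[ℓ] V]

/-- a potential Tate class -/
def Tate (ρ : GF ℚ →* (V →ₗ[ℚ_[ℓ]] V)) (c : GF ℚ →* ℚ_[ℓ]ˣ) (n m : ℕ) (t : ⋀[ℚ_[ℓ]]^n V) : Prop :=
  ∃ Δ : Subgroup (GF ℚ), IsOpen (Δ : Set (GF ℚ)) ∧
    ∀ g ∈ Δ, exteriorPower.map n (ρ g) t = (c g : ℚ_[ℓ]) ^ m • t

/-- `W` has a stable complement -/
def Splits (ρ : GF ℚ →* (V →ₗ[ℚ_[ℓ]] V)) (W : Submodule ℚ_[ℓ] V) : Prop :=
  ∃ K : Submodule ℚ_[ℓ] V, (∀ g, K ≤ K.comap (ρ g)) ∧ IsCompl W K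

section

variable (ρ : GF ℚ →* (V →ₗ[ℚ_[ℓ]] V))
    (hρ : ∀ (φ : Dual ℚ_[ℓ] V) (x : V), Continuous fun g => φ (ρ g x))
    (B : LinearMap.BilinForm ℚ_[ℓ] V) (hB : B.Nondegenerate)
    (c : GF ℚ →* ℚ_[ℓ]ˣ) (hc : Continuous fun g => (c g : ℚ_[ℓ])) {w : ℕ} (hw : 0 < w)
    (hBc : ∀ g x y, B (ρ g x) (ρ g y) = (c g : ℚ_[ℓ]) ^ w * B x y) (S : Finset ℕ)
    (hP : ∀ q : ℕ, q.Prime → q ∉ S → ∀ P : Ideal (OO ℚ), P.IsMaximal → (q : OO ℚ) ∈ P →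
      ∀ σ, FrobAt q P σ → (c σ⁻¹ : ℚ_[ℓ]) = q ∧ ∃ R : ℤ[X], R.Monic ∧
        (ρ σ⁻¹).charpoly = R.map (algebraMap ℤ ℚ_[ℓ]) ∧
        ∀ z : ℂ, aeval z R = 0 → ‖z‖ ^ 2 = (q : ℝ) ^ w)
include hρ hB hc hw hBc hP

omit hB hBc in
theorem tate_of_stable (W : Submodule ℚ_[ℓ] V) (hW : ∀ g, W ≤ W.comap (ρ g)) {n : ℕ}
    (b : Basis (Fin n) ℚ_[ℓ] W) :
    ∃ m, 2 * m = n * w ∧ Tate ρ c n m (ιMulti ℚ_[ℓ] n fun i => (b i : V)) := by
  obtain ⟨m, hm, Δ, hΔ, h⟩ := det_tate ρ hρ c hc hw S hP W hW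
  rw [finrank_eq_card_basis b, Fintype.card_fin] at hm
  refine ⟨m, hm, Δ, hΔ, fun g hg => ?_⟩
  rw [map_basis b (hW g), h g hg]

omit hρ hB hc hw hP in
theorem splits_of_ne (W : Submodule ℚ_[ℓ] V) (hW : ∀ g, W ≤ W.comap (ρ g)) {n m : ℕ}
    (hm : 2 * m = n * w)
    (b : Basis (Fin n) ℚ_[ℓ] W) (t : ⋀[ℚ_[ℓ]]^n V) (ht : Tate ρ c n m t)
    (h0 : form B n (ιMulti ℚ_[ℓ] n fun i => (b i : V)) t ≠ 0) : Splits ρ W := by
  obtain ⟨Δ, hΔ, htΔ⟩ := ht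
  let φ : V [⋀^Fin n]→ₗ[ℚ_[ℓ]] ℚ_[ℓ] :=
    ((form B n).flip t).compAlternatingMap (ιMulti ℚ_[ℓ] n)
  obtain ⟨K, hK, hKΔ⟩ := exists_compl ρ W hW b φ Δ (fun g hg => ⟨(c g : ℚ_[ℓ]) ^ m,
    pow_ne_zero _ (Units.ne_zero _), fun x => by
      change form B n (ιMulti ℚ_[ℓ] n fun i => ρ g (x i)) t =
        (c g : ℚ_[ℓ]) ^ m * form B n (ιMulti ℚ_[ℓ] n x) t
      have h1 := form_map n (f := ρ g) (hBc g) (ιMulti ℚ_[ℓ] n x) t
      rw [htΔ g hg, map_smul, map_apply_ιMulti, smul_eq_mul, ← pow_mul, mul_comm w n, ← hm] at h1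
      have h2 : ((c g : ℚ_[ℓ]) ^ m) ≠ 0 := pow_ne_zero _ (Units.ne_zero _)
      apply mul_left_cancel₀ h2
      have h3 : (ρ g ∘ x) = fun i => ρ g (x i) := rfl
      rw [h3] at h1
      rw [h1, two_mul, pow_add]
      ring⟩) h0
  obtain ⟨K', h1, h2⟩ := average ρ W hW Δ (finiteIndex_of_open hΔ) K hK hKΔ
  exact ⟨K', h2, h1⟩

theorem exists_of_splits (W : Submodule ℚ_[ℓ] V) {n : ℕ}
    (b : Basis (Fin n) ℚ_[ℓ] W) (h : Splits ρ W) :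
    ∃ m, 2 * m = n * w ∧ ∃ t : ⋀[ℚ_[ℓ]]^n V, Tate ρ c n m t ∧
      form B n (ιMulti ℚ_[ℓ] n fun i => (b i : V)) t ≠ 0 := by
  obtain ⟨K, hK, hWK⟩ := h
  let U : Submodule ℚ_[ℓ] V := B.orthogonal K
  have hU : ∀ g, U ≤ U.comap (ρ g) := by
    intro g x hx k hk
    have h1 : ρ g (ρ g⁻¹ k) = k := by
      rw [← Module.End.mul_apply, ← map_mul, mul_inv_cancel, map_one, Module.End.one_apply]
    change B k (ρ g x) = 0
    rw [← h1, hBc, hx _ (hK g⁻¹ hk), mul_zero]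
  have hn : finrank ℚ_[ℓ] W = n := by rw [finrank_eq_card_basis b, Fintype.card_fin]
  have hUn : finrank ℚ_[ℓ] U = n := by
    have h1 : finrank ℚ_[ℓ] U = finrank ℚ_[ℓ] V - finrank ℚ_[ℓ] K :=
      LinearMap.BilinForm.finrank_orthogonal hB K
    have h2 := Submodule.finrank_add_eq_of_isCompl hWK
    omega
  let u : Basis (Fin n) ℚ_[ℓ] U := (finBasis ℚ_[ℓ] U).reindex (finCongr hUn)
  obtain ⟨m, hm, htu⟩ := tate_of_stable ρ hρ c hc hw S hP U hU u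
  refine ⟨m, hm, _, htu, ?_⟩
  rw [form_ι]
  intro hdet
  obtain ⟨a, ha, ha2⟩ := Matrix.exists_vecMul_eq_zero_iff.2 hdet
  -- the vector
  let y : U := ∑ i, a i • u i
  have hy : ∀ j, B (b j : V) (y : V) = 0 := by
    intro j
    have h1 := congrFun ha2 j
    rw [Matrix.vecMul, dotProduct] at h1
    simp only [y, Submodule.coe_sum, Submodule.coe_smul, map_sum, map_smul, smul_eq_mul]
    simpa using h1
  have hyW : ∀ x ∈ W, B x (y : V) = 0 := by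
    intro x hx
    have h1 : x = ∑ j, b.repr ⟨x, hx⟩ j • (b j : V) := by
      have h3 := congrArg Subtype.val (b.sum_repr ⟨x, hx⟩)
      simp only [Submodule.coe_sum, Submodule.coe_smul] at h3
      exact h3.symm
    rw [h1, map_sum, LinearMap.sum_apply]
    refine Finset.sum_eq_zero fun j _ => ?_
    rw [map_smul, LinearMap.smul_apply, hy, smul_zero]
  have hy0 : (y : V) = 0 := by
    refine hB.2 _ fun x => ?_
    have hx : x ∈ W ⊔ K := by rw [hWK.sup_eq_top]; trivial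
    obtain ⟨x1, hx1, x2, hx2, rfl⟩ := Submodule.mem_sup.1 hx
    rw [map_add, LinearMap.add_apply, hyW _ hx1, zero_add]
    exact y.2 x2 hx2
  have hy1 : y = 0 := Subtype.ext hy0
  apply ha
  exact funext (Fintype.linearIndependent_iff.1 u.linearIndependent a hy1)

end

end Pool.Agent.V5helper84.TS
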