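import Pool.Agent.V5helper84.TS.C3
import Pool.Agent.Y142.Rel
import Pool.Agent.W401.Cheb.Frob

/-!
# Semisimplicity and Tate classes in exterior powers
-/

set_option autoImplicit false

namespace Pool.Agent.V5helper84.TS

open NumberField Filter Topology IsDedekindDomain Polynomial Module exteriorPower
open Pool.Agent.W569.FM (GF FrobAt OO)
open Pool.Agent.Y142

variable {ℓ : ℕ} [hℓ : Fact ℓ.Prime] {V : Type*} [AddCommGroup V] [Module ℚ_[ℓ] V]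
  [FiniteDimensional ℚ_[ℓ] V]

/-- there is a Frobenius element at every prime number -/
theorem exists_frobAt {q : ℕ} (hq : q.Prime) : ∃ P : Ideal (OO ℚ), P.IsMaximal ∧ (q : OO ℚ) ∈ P ∧
    ∃ σ : GF ℚ, FrobAt q P σ := by
  let v : HeightOneSpectrum (𝓞 ℚ) := ⟨W571.FM.pl q, (W571.FM.pl_max hq).isPrime, by
    intro h0
    have h1 := W571.FM.absNorm_pl q
    rw [h0, Ideal.absNorm_bot] at h1
    exact hq.ne_zero h1.symm⟩
  obtain ⟨σ, Q, hQ, hQv, hσ⟩ := Pool.Agent.W401.Frob.exists_frob v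
  refine ⟨Q, hQ, ?_, σ, ?_⟩
  · have h1 : (q : 𝓞 ℚ) ∈ v.asIdeal := Ideal.mem_span_singleton_self _
    rw [← hQv, Ideal.mem_comap, map_natCast] at h1
    exact h1
  · intro x
    have h1 := hσ x
    have h2 : Ideal.absNorm v.asIdeal = q := W571.FM.absNorm_pl q
    rw [h2] at h1
    exact h1

/-- **Lattice.** If all irreducible stable subspaces split then all stable subspaces split. -/
theorem splits_all (ρ : GF ℚ →* (V →ₗ[ℚ_[ℓ]] V))
    (h : ∀ W : Submodule ℚ_[ℓ] V, (∀ g, W ≤ W.comap (ρ g)) → W ≠ ⊥ →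
      (∀ W' : Submodule ℚ_[ℓ] V, (∀ g, W' ≤ W'.comap (ρ g)) → W' ≤ W → W' = ⊥ ∨ W' = W) →
      Splits ρ W) (U : Submodule ℚ_[ℓ] V) (hU : ∀ g, U ≤ U.comap (ρ g)) : Splits ρ U := by
  classical
  -- a split subspace of `U` of maximal dimension
  let p : ℕ → Prop := fun n => ∃ U' : Submodule ℚ_[ℓ] V, (∀ g, U' ≤ U'.comap (ρ g)) ∧ U' ≤ U ∧
    Splits ρ U' ∧ finrank ℚ_[ℓ] U' = n
  have hp0 : p 0 := ⟨⊥, fun g => bot_le, bot_le, ⟨⊤, fun g => le_top, isCompl_bot_top⟩, finrank_bot _ _⟩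
  have hpb : ∀ n, p n → n ≤ finrank ℚ_[ℓ] V := by
    rintro n ⟨U', -, -, -, h1⟩
    rw [← h1]
    exact Submodule.finrank_le _
  obtain ⟨U', hU', hU'U, ⟨M, hM, hUM⟩, hn⟩ := Nat.findGreatest_spec (P := p)
    (Nat.zero_le (finrank ℚ_[ℓ] V)) hp0
  set N := Nat.findGreatest p (finrank ℚ_[ℓ] V) with hN
  have hmax : ∀ n, p n → n ≤ N := fun n hn => Nat.le_findGreatest (hpb n hn) hn
  by_cases hbot : U ⊓ M = ⊥
  · have h1 : U' = U := by
      refine le_antisymm hU'U fun x hx => ?_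
      have hx' : x ∈ U' ⊔ M := by rw [hUM.sup_eq_top]; trivial
      obtain ⟨a, ha, b, hb, rfl⟩ := Submodule.mem_sup.1 hx'
      have h2 : b ∈ U ⊓ M := ⟨(Submodule.add_mem_iff_right U (hU'U ha)).1 hx, hb⟩
      rw [hbot, Submodule.mem_bot] at h2
      rw [h2, add_zero]
      exact ha
    rw [← h1]
    exact ⟨M, hM, hUM⟩
  · -- a minimal stable subspace of `U ⊓ M`
    exfalso
    let r : ℕ → Prop := fun n => ∃ W : Submodule ℚ_[ℓ] V, (∀ g, W ≤ W.comap (ρ g)) ∧ W ≤ U ⊓ M ∧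
      W ≠ ⊥ ∧ finrank ℚ_[ℓ] W = n
    have hr : ∃ n, r n := ⟨_, U ⊓ M, fun g x hx => ⟨hU g hx.1, hM g hx.2⟩, le_rfl, hbot, rfl⟩
    obtain ⟨W, hW, hWUM, hW0, hWn⟩ := Nat.find_spec hr
    have hmin : ∀ W' : Submodule ℚ_[ℓ] V, (∀ g, W' ≤ W'.comap (ρ g)) → W' ≤ W →
        W' = ⊥ ∨ W' = W := by
      intro W' hW' hle
      by_cases h0 : W' = ⊥
      · exact Or.inl h0
      · right
        apply Submodule.eq_of_le_of_finrank_le hle
        rw [hWn]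
        exact Nat.find_min' hr ⟨W', hW', hle.trans hWUM, h0, rfl⟩
    obtain ⟨K, hK, hWK⟩ := h W hW hW0 hmin
    have hWU : W ≤ U := hWUM.trans inf_le_left
    have hWM : W ≤ M := hWUM.trans inf_le_right
    have hdisj : Disjoint U' W := hUM.disjoint.mono_right hWM
    have hcompl : IsCompl (U' ⊔ W) (M ⊓ K) := by
      constructor
      · rw [Submodule.disjoint_def]
        rintro x hx ⟨hxM, hxK⟩
        obtain ⟨a, ha, b, hb, rfl⟩ := Submodule.mem_sup.1 hx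
        have h1 : a ∈ M := (Submodule.add_mem_iff_left M (hWM hb)).1 hxM
        have h2 : a = 0 := Submodule.disjoint_def.1 hUM.disjoint a ha h1
        rw [h2, zero_add] at hxK ⊢
        exact Submodule.disjoint_def.1 hWK.disjoint b hb hxK
      · rw [codisjoint_iff, sup_assoc]
        have h1 : W ⊔ M ⊓ K = M := by
          rw [inf_comm, ← sup_inf_assoc_of_le K hWM, hWK.sup_eq_top, top_inf_eq]
        rw [h1, hUM.sup_eq_top]
    have h1 : p (finrank ℚ_[ℓ] (U' ⊔ W : Submodule ℚ_[ℓ] V)) := by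
      refine ⟨U' ⊔ W, fun g => ?_, sup_le hU'U hWU, ⟨M ⊓ K, fun g x hx => ⟨hM g hx.1, hK g hx.2⟩,
        hcompl⟩, rfl⟩
      refine sup_le ((hU' g).trans (Submodule.comap_mono le_sup_left))
        ((hW g).trans (Submodule.comap_mono le_sup_right))
    have h2 := hmax _ h1
    have h3 := Submodule.finrank_sup_add_finrank_inf_eq U' W
    rw [hdisj.eq_bot, finrank_bot, add_zero, hn] at h3
    have h4 : 0 < finrank ℚ_[ℓ] W := by
      rw [Nat.pos_iff_ne_zero]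
      intro h5
      exact hW0 (Submodule.finrank_eq_zero.1 h5)
    omega

/-- the exterior product of a basis of a subspace is not zero -/
theorem ι_ne_zero {F : Type*} [Field F] {V : Type*} [AddCommGroup V] [Module F V]
    {W : Submodule F V} {n : ℕ} (b : Basis (Fin n) F W) :
    ιMulti F n (fun i => (b i : V)) ≠ 0 := by
  intro h0
  choose f hf using fun i => LinearMap.exists_extend (b.coord i)
  have h1 := pairingDual_ιMulti_ιMulti (R := F) (M := V) (n := n) f fun i => (b i : V)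
  rw [h0, map_zero] at h1
  have h2 : (Matrix.of fun i j : Fin n => f j (b i : V)) = 1 := by
    ext i j
    rw [Matrix.of_apply]
    have h3 : f j (b i : V) = b.coord j (b i) := by
      rw [← hf j]
      rfl
    rw [h3, Basis.coord_apply, Basis.repr_self, Finsupp.single_apply, Matrix.one_apply]
  rw [h2, Matrix.det_one] at h1
  exact zero_ne_one h1

section

variable (ρ : GF ℚ →* (V →ₗ[ℚ_[ℓ]] V))
    (hρ : ∀ (φ : Dual ℚ_[ℓ] V) (x : V), Continuous fun g => φ (ρ g x))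
    (B : LinearMap.BilinForm ℚ_[ℓ] V) (hB : B.Nondegenerate) (hB₀ : B.IsRefl)
    (c : GF ℚ →* ℚ_[ℓ]ˣ) (hc : Continuous fun g => (c g : ℚ_[ℓ])) {w : ℕ} (hw : 0 < w)
    (hBc : ∀ g x y, B (ρ g x) (ρ g y) = (c g : ℚ_[ℓ]) ^ w * B x y) (S : Finset ℕ) (R : ℕ → ℤ[X])
    (hP : ∀ q : ℕ, q.Prime → q ∉ S → ∀ P : Ideal (OO ℚ), P.IsMaximal → (q : OO ℚ) ∈ P →
      ∀ σ, FrobAt q P σ → (c σ⁻¹ : ℚ_[ℓ]) = q ∧ (R q).Monic ∧
        (ρ σ⁻¹).charpoly = (R q).map (algebraMap ℤ ℚ_[ℓ]) ∧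
        ∀ z : ℂ, aeval z (R q) = 0 → ‖z‖ ^ 2 = (q : ℝ) ^ w)
include hρ hB hB₀ hc hw hBc hP

omit hB₀ in
theorem isoRel_of_isotropic (W : Submodule ℚ_[ℓ] V) (hW : ∀ g, W ≤ W.comap (ρ g))
    (hiso : W ≤ B.orthogonal W) {p : ℕ} (hp : p.Prime) (hpS : p ∉ S) :
    IsoRel ℚ_[ℓ] (AlgebraicClosure ℚ_[ℓ]) (fun _ : Fin 1 => R p) (p ^ w) (finrank ℚ_[ℓ] W) := by
  classical
  have hchar : CharZero (AlgebraicClosure ℚ_[ℓ]) := charZero_of_injective_algebraMap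
    (algebraMap ℚ_[ℓ] (AlgebraicClosure ℚ_[ℓ])).injective
  obtain ⟨m, hm, Δ, hΔ, hdet⟩ := det_tate ρ hρ c hc hw S (fun q hq hqS P hPm hqP σ hσ => by
    obtain ⟨h1, h2, h3, h4⟩ := hP q hq hqS P hPm hqP σ hσ
    exact ⟨h1, R q, h2, h3, h4⟩) W hW
  have hfin := finiteIndex_of_open hΔ
  obtain ⟨P, hPm, hpP, σ, hσ⟩ := exists_frobAt hp
  obtain ⟨hcσ, hR1, hR2, hR3⟩ := hP p hp hpS P hPm hpP σ hσ
  obtain ⟨k, hk, -, hkΔ⟩ : ∃ k : ℕ, 0 < k ∧ k ≤ Δ.index ∧ σ⁻¹ ^ k ∈ Δ :=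
    Δ.exists_pow_mem_of_index_ne_zero hfin.index_ne_zero σ⁻¹
  have hp0 : (p : ℚ_[ℓ]) ≠ 0 := by exact_mod_cast hp.ne_zero
  have h0 : (R p).eval 0 ≠ 0 := by
    intro h0
    have h2 := hR3 0 (by
      have h3 : aeval (0 : ℂ) (R p) = algebraMap ℤ ℂ ((R p).eval 0) := by
        rw [← map_zero (algebraMap ℤ ℂ), aeval_algebraMap_apply, coe_aeval_eq_eval]
      rw [h3, h0, map_zero])
    rw [norm_zero, zero_pow (by norm_num)] at h2
    have h4 : (0 : ℝ) < (p : ℝ) ^ w := by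
      have := hp.pos
      positivity
    exact absurd h2 h4.ne
  refine isoRel_of_dvd (pow_ne_zero _ hp.ne_zero) (fun _ => hR1) (fun _ => h0) hk
    (Q := fun _ => ((ρ σ⁻¹).restrict (hW σ⁻¹)).charpoly) (fun _ => ⟨LinearMap.charpoly_monic _,
      LinearMap.charpoly_natDegree _, ?_⟩) ?_
  · rw [Nat.cast_pow, ← hR2]
    refine charpoly_mul_dual_dvd hB (pow_ne_zero _ hp0) (fun x y => ?_) (hW _) hiso
    rw [hBc, hcσ]
  · rw [Fin.prod_univ_one, ← coeff_zero_eq_eval_zero]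
    have h1 := det_eq_sign_coeff ((ρ σ⁻¹).restrict (hW σ⁻¹))
    have h2 : (((ρ σ⁻¹).restrict (hW σ⁻¹)).charpoly.coeff 0) ^ 2 =
        (LinearMap.det ((ρ σ⁻¹).restrict (hW σ⁻¹))) ^ 2 := by
      rw [h1, mul_pow, ← pow_mul, mul_comm _ 2, pow_mul, neg_one_sq, one_pow, one_mul]
    rw [pow_mul, h2, ← pow_mul, mul_comm 2 k, pow_mul]
    have h3 : LinearMap.det ((ρ σ⁻¹).restrict (hW σ⁻¹)) ^ k = (p : ℚ_[ℓ]) ^ (m * k) := by
      have h4 := hdet _ hkΔ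
      rw [← coe_detRep, map_pow, map_pow, Units.val_pow_eq_pow_val, Units.val_pow_eq_pow_val,
        hcσ, coe_detRep, ← pow_mul, mul_comm k m] at h4
      exact h4
    rw [h3, Nat.cast_pow, ← pow_mul, ← pow_mul]
    congr 1
    calc m * k * 2 = (2 * m) * k := by ring
      _ = w * (finrank ℚ_[ℓ] W * 1 * k) := by rw [hm]; ring

omit hρ hB hc hw hP in
theorem semisimple_of (h : ∀ W : Submodule ℚ_[ℓ] V, (∀ g, W ≤ W.comap (ρ g)) → W ≠ ⊥ →
      (∀ W' : Submodule ℚ_[ℓ] V, (∀ g, W' ≤ W'.comap (ρ g)) → W' ≤ W → W' = ⊥ ∨ W' = W) →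
      W ≤ B.orthogonal W → Splits ρ W) (U : Submodule ℚ_[ℓ] V) (hU : ∀ g, U ≤ U.comap (ρ g)) :
    Splits ρ U := by
  refine splits_all ρ (fun W hW hW0 hmin => ?_) U hU
  have hWo : ∀ g, B.orthogonal W ≤ (B.orthogonal W).comap (ρ g) := by
    intro g x hx k hk
    have h1 : ρ g (ρ g⁻¹ k) = k := by
      rw [← Module.End.mul_apply, ← map_mul, mul_inv_cancel, map_one, Module.End.one_apply]
    change B k (ρ g x) = 0
    rw [← h1, hBc, hx _ (hW g⁻¹ hk), mul_zero]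
  rcases hmin (W ⊓ B.orthogonal W) (fun g x hx => ⟨hW g hx.1, hWo g hx.2⟩) inf_le_left with h1 | h1
  · refine ⟨B.orthogonal W, hWo, ?_⟩
    rw [LinearMap.BilinForm.isCompl_orthogonal_iff_disjoint hB₀, disjoint_iff]
    exact h1
  · exact h W hW hW0 hmin (inf_eq_left.1 h1)

end

end Pool.Agent.V5helper84.TS
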