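import Pool.Agent.V5helper84.TS.C4

/-!
# Alternating forms
-/

set_option autoImplicit false

namespace Pool.Agent.V5helper84.TS

open NumberField Filter Topology IsDedekindDomain Polynomial Module
open Pool.Agent.W569.FM (GF FrobAt OO)
open Pool.Agent.Y142

/-- alternating forms of top degree and determinants -/
theorem alt_det {F : Type*} [Field F] {V : Type*} [AddCommGroup V] [Module F V]
    [FiniteDimensional F V] {W : Submodule F V} {n : ℕ} (hn : finrank F W = n) {f : V →ₗ[F] V}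
    (hf : W ≤ W.comap f) (φ : V [⋀^Fin n]→ₗ[F] F) (x : Fin n → V) (hx : ∀ i, x i ∈ W) :
    φ (fun i => f (x i)) = LinearMap.det (f.restrict hf) * φ x := by
  let b : Basis (Fin n) F W := (finBasis F W).reindex (finCongr hn)
  let g : W [⋀^Fin n]→ₗ[F] F := φ.compLinearMap W.subtype
  let y : Fin n → W := fun i => ⟨x i, hx i⟩
  have h1 : g (fun i => f.restrict hf (y i)) = LinearMap.det (f.restrict hf) * g y := by
    rw [g.eq_smul_basis_det b]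
    simp only [AlternatingMap.smul_apply, smul_eq_mul]
    have h3 := b.det_comp (f.restrict hf) y
    have h4 : (⇑(f.restrict hf) ∘ y) = fun i => f.restrict hf (y i) := rfl
    rw [h4] at h3
    rw [h3]
    ring
  exact h1

variable {ℓ : ℕ} [hℓ : Fact ℓ.Prime] {V : Type*} [AddCommGroup V] [Module ℚ_[ℓ] V]
  [FiniteDimensional ℚ_[ℓ] V]

/-- a semi-invariant alternating form -/
def TateForm (ρ : GF ℚ →* (V →ₗ[ℚ_[ℓ]] V)) (c : GF ℚ →* ℚ_[ℓ]ˣ) (n m : ℕ)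
    (φ : V [⋀^Fin n]→ₗ[ℚ_[ℓ]] ℚ_[ℓ]) : Prop :=
  ∃ Δ : Subgroup (GF ℚ), IsOpen (Δ : Set (GF ℚ)) ∧
    ∀ g ∈ Δ, ∀ x : Fin n → V, φ (fun i => ρ g (x i)) = (c g : ℚ_[ℓ]) ^ m * φ x

section

variable (ρ : GF ℚ →* (V →ₗ[ℚ_[ℓ]] V))
    (hρ : ∀ (φ : Dual ℚ_[ℓ] V) (x : V), Continuous fun g => φ (ρ g x))
    (c : GF ℚ →* ℚ_[ℓ]ˣ) (hc : Continuous fun g => (c g : ℚ_[ℓ])) {w : ℕ} (hw : 0 < w)
    (S : Finset ℕ)
    (hP : ∀ q : ℕ, q.Prime → q ∉ S → ∀ P : Ideal (OO ℚ), P.IsMaximal → (q : OO ℚ) ∈ P →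
      ∀ σ, FrobAt q P σ → (c σ⁻¹ : ℚ_[ℓ]) = q ∧ ∃ R : ℤ[X], R.Monic ∧
        (ρ σ⁻¹).charpoly = R.map (algebraMap ℤ ℚ_[ℓ]) ∧
        ∀ z : ℂ, aeval z R = 0 → ‖z‖ ^ 2 = (q : ℝ) ^ w)
include hρ hc hw hP

theorem tate_line (W : Submodule ℚ_[ℓ] V) (hW : ∀ g, W ≤ W.comap (ρ g)) :
    ∃ m, 2 * m = finrank ℚ_[ℓ] W * w ∧ ∃ Δ : Subgroup (GF ℚ), IsOpen (Δ : Set (GF ℚ)) ∧
      ∀ g ∈ Δ, ∀ (φ : V [⋀^Fin (finrank ℚ_[ℓ] W)]→ₗ[ℚ_[ℓ]] ℚ_[ℓ]) (x : Fin (finrank ℚ_[ℓ] W) → V),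
        (∀ i, x i ∈ W) → φ (fun i => ρ g (x i)) = (c g : ℚ_[ℓ]) ^ m * φ x := by
  obtain ⟨m, hm, Δ, hΔ, h⟩ := det_tate ρ hρ c hc hw S hP W hW
  refine ⟨m, hm, Δ, hΔ, fun g hg φ x hx => ?_⟩
  rw [alt_det rfl (hW g) φ x hx, h g hg]

theorem form_of_splits (W : Submodule ℚ_[ℓ] V) (hW : ∀ g, W ≤ W.comap (ρ g))
    (h : Splits ρ W) :
    ∃ (m : ℕ) (φ : V [⋀^Fin (finrank ℚ_[ℓ] W)]→ₗ[ℚ_[ℓ]] ℚ_[ℓ]),
      2 * m = finrank ℚ_[ℓ] W * w ∧ TateForm ρ c _ m φ ∧ ∃ x : Fin (finrank ℚ_[ℓ] W) → V,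
        (∀ i, x i ∈ W) ∧ φ x ≠ 0 := by
  obtain ⟨m, hm, Δ, hΔ, hdet⟩ := det_tate ρ hρ c hc hw S hP W hW
  obtain ⟨K, hK, hWK⟩ := h
  let b := finBasis ℚ_[ℓ] W
  let r : V →ₗ[ℚ_[ℓ]] W := W.projectionOnto K hWK
  have hr : ∀ g v, r (ρ g v) = (ρ g).restrict (hW g) (r v) := by
    intro g v
    have hv : v ∈ W ⊔ K := by rw [hWK.sup_eq_top]; trivial
    obtain ⟨x, hx, y, hy, rfl⟩ := Submodule.mem_sup.1 hv
    have h1 : r (ρ g x) = ⟨ρ g x, hW g hx⟩ :=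
      Submodule.projectionOnto_apply_left hWK ⟨ρ g x, hW g hx⟩
    have h2 : r x = ⟨x, hx⟩ := Submodule.projectionOnto_apply_left hWK ⟨x, hx⟩
    have h3 : r (ρ g y) = 0 := (Submodule.projectionOnto_apply_eq_zero_iff hWK).2 (hK g hy)
    have h4 : r y = 0 := (Submodule.projectionOnto_apply_eq_zero_iff hWK).2 hy
    rw [map_add, map_add, map_add, h1, h2, h3, h4, add_zero, add_zero]
    rfl
  refine ⟨m, b.det.compLinearMap r, hm, ⟨Δ, hΔ, fun g hg x => ?_⟩, fun i => (b i : V),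
    fun i => (b i).2, ?_⟩
  · rw [AlternatingMap.compLinearMap_apply, AlternatingMap.compLinearMap_apply]
    have h1 : (fun i => r (ρ g (x i))) = ⇑((ρ g).restrict (hW g)) ∘ fun i => r (x i) := by
      funext i
      exact hr g (x i)
    rw [h1, b.det_comp, hdet g hg]
  · rw [AlternatingMap.compLinearMap_apply]
    have h1 : (fun i => r (b i : V)) = b := by
      funext i
      exact Submodule.projectionOnto_apply_left hWK (b i)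
    rw [h1, b.det_self]
    exact one_ne_zero

end

theorem splits_of_form (ρ : GF ℚ →* (V →ₗ[ℚ_[ℓ]] V)) (c : GF ℚ →* ℚ_[ℓ]ˣ)
    (W : Submodule ℚ_[ℓ] V) (hW : ∀ g, W ≤ W.comap (ρ g)) {m : ℕ}
    (φ : V [⋀^Fin (finrank ℚ_[ℓ] W)]→ₗ[ℚ_[ℓ]] ℚ_[ℓ]) (hφ : TateForm ρ c _ m φ)
    (x : Fin (finrank ℚ_[ℓ] W) → V) (hx : ∀ i, x i ∈ W) (h0 : φ x ≠ 0) : Splits ρ W := by
  obtain ⟨Δ, hΔ, htΔ⟩ := hφ
  let b := finBasis ℚ_[ℓ] W
  have h1 : φ (fun i => (b i : V)) ≠ 0 := by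
    intro h2
    apply h0
    let g : W [⋀^Fin (finrank ℚ_[ℓ] W)]→ₗ[ℚ_[ℓ]] ℚ_[ℓ] := φ.compLinearMap W.subtype
    have h3 := congrArg (fun u => u fun i => (⟨x i, hx i⟩ : W)) (g.eq_smul_basis_det b)
    have h4 : g b = 0 := h2
    simp only [h4, zero_smul, AlternatingMap.zero_apply] at h3
    exact h3
  obtain ⟨K, hK, hKΔ⟩ := exists_compl ρ W hW b φ Δ (fun g hg => ⟨(c g : ℚ_[ℓ]) ^ m,
    pow_ne_zero _ (Units.ne_zero _), fun x => htΔ g hg x⟩) h1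
  obtain ⟨K', h1, h2⟩ := average ρ W hW Δ (finiteIndex_of_open hΔ) K hK hKΔ
  exact ⟨K', h2, h1⟩

end Pool.Agent.V5helper84.TS
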